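import Pool.Agent.Helper37.RG3.Goals

set_option autoImplicit false
set_option linter.unusedSectionVars false

/-! Packet GOD: the odd gadget. -/

namespace Pool.Agent.Helper54.RG3

open Finset Pool.Agent.Helper37.RG3

variable {V : Type} [Fintype V] [DecidableEq V]

theorem edg_symm (p q : V) (n : ℕ) (u v : V) : edg p q n u v = edg p q n v u := by
  unfold edg
  by_cases h1 : (u = p ∧ v = q) ∨ (u = q ∧ v = p)
  · rw [if_pos h1, if_pos (by tauto)]
  · rw [if_neg h1, if_neg (by tauto)]

theorem edg_self {p q : V} (hpq : p ≠ q) (n : ℕ) (u : V) : edg p q n u u = 0 := by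
  unfold edg
  rw [if_neg]
  rintro (⟨h1, h2⟩ | ⟨h1, h2⟩)
  · exact hpq (h1.symm.trans h2)
  · exact hpq (h2.symm.trans h1)

theorem edg_ne {p q : V} {n : ℕ} {u v : V} (h : edg p q n u v ≠ 0) : u = p ∨ u = q := by
  unfold edg at h
  by_contra hc
  rw [not_or] at hc
  apply h
  rw [if_neg]
  rintro (⟨h1, _⟩ | ⟨h1, _⟩)
  · exact hc.1 h1
  · exact hc.2 h1

theorem edg_split {p q : V} (hpq : p ≠ q) (n : ℕ) (u v : V) :
    edg p q n u v = (if u = p then (if v = q then n else 0) else 0) +
      (if u = q then (if v = p then n else 0) else 0) := by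
  unfold edg
  by_cases h1 : u = p
  · subst h1
    by_cases h2 : v = q
    · subst h2
      simp [hpq]
    · simp [h2, hpq]
  · by_cases h2 : u = q
    · subst h2
      simp [h1]
    · simp [h1, h2]

theorem edg_row {p q : V} (hpq : p ≠ q) (n : ℕ) (u : V) :
    ∑ v, edg p q n u v = (if u = p then n else 0) + (if u = q then n else 0) := by
  simp only [edg_split hpq]
  rw [Finset.sum_add_distrib]
  congr 1
  · by_cases h1 : u = p
    · simp [h1]
    · simp [h1]
  · by_cases h1 : u = q
    · simp [h1]
    · simp [h1]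

theorem ct_edg {p q : V} (hpq : p ≠ q) (n : ℕ) (W : Finset V) :
    ct (edg p q n) W = if (p ∈ W ↔ q ∈ W) then 0 else n := by
  have h1 : ct (edg p q n) W = (if p ∈ W then (if q ∈ Wᶜ then n else 0) else 0) +
      (if q ∈ W then (if p ∈ Wᶜ then n else 0) else 0) := by
    unfold ct bt
    simp only [edg_split hpq]
    simp only [Finset.sum_add_distrib]
    congr 1
    · have : ∀ x ∈ W, (∑ i ∈ Wᶜ, if x = p then (if i = q then n else 0) else 0) =
          if x = p then (if q ∈ Wᶜ then n else 0) else 0 := by
        intro x _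
        by_cases hx : x = p
        · simp only [hx, if_true]
          rw [Finset.sum_ite_eq']
        · simp [hx]
      rw [Finset.sum_congr rfl this, Finset.sum_ite_eq']
    · have : ∀ x ∈ W, (∑ i ∈ Wᶜ, if x = q then (if i = p then n else 0) else 0) =
          if x = q then (if p ∈ Wᶜ then n else 0) else 0 := by
        intro x _
        by_cases hx : x = q
        · simp only [hx, if_true]
          rw [Finset.sum_ite_eq']
        · simp [hx]
      rw [Finset.sum_congr rfl this, Finset.sum_ite_eq']
  rw [h1]
  by_cases hp : p ∈ W <;> by_cases hq : q ∈ W <;> simp [hp, hq]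

/-- Disjoint sets. -/
theorem ct_disj (w : V → V → ℕ) (hs : ∀ u v, w u v = w v u) {A B : Finset V}
    (h : Disjoint A B) : ct w A + ct w B = ct w (A ∪ B) + 2 * bt w A B := by
  have h1 := submod w hs A B
  rw [Finset.disjoint_iff_inter_eq_empty.mp h, Finset.sdiff_eq_self_of_disjoint h,
    Finset.sdiff_eq_self_of_disjoint h.symm] at h1
  have h2 : ct w ∅ = 0 := by unfold ct; exact bt_empty_left w _
  omega

theorem ct_compl' {w : V → V → ℕ} {U W : Finset V} (hs : ∀ u v, w u v = w v u)
    (hu : ∀ u v, w u v ≠ 0 → u ∈ U) (hW : W ⊆ U) : ct w (U \ W) = ct w W := by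
  have hz : ∀ (A : Finset V) (B : Finset V), bt w A B = bt w A (B ∩ U) := by
    intro A B
    have hd : Disjoint (B ∩ U) (B \ U) := by
      rw [Finset.disjoint_left]; intro v; simp; tauto
    have he : B = (B ∩ U) ∪ (B \ U) := by ext v; simp; tauto
    conv_lhs => rw [he]
    rw [bt_union_right w _ hd]
    have : bt w A (B \ U) = 0 := by
      rw [bt_eq_zero]
      intro a _ b hb
      by_contra hc
      rw [hs] at hc
      exact (Finset.mem_sdiff.mp hb).2 (hu b a hc)
    omega
  unfold ct
  rw [hz, hz W, bt_comm w hs W]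
  congr 1
  · ext v; simp only [mem_sdiff, mem_inter, mem_compl]; tauto
  · ext v
    simp only [mem_sdiff, mem_inter, mem_compl]
    constructor
    · rintro ⟨h1, h2⟩
      by_contra hc
      exact h1 ⟨h2, hc⟩
    · intro h1
      exact ⟨fun h2 => h2.2 h1, hW h1⟩

theorem ct_del (w : V → V → ℕ) {X W : Finset V} (h : Disjoint W X) :
    ct w W = bt w W X + ct (del w X) W := by
  have hXW : X ⊆ Wᶜ := by
    intro v hv
    rw [mem_compl]
    exact fun hc => Finset.disjoint_left.mp h hc hv
  have he : Wᶜ = X ∪ (Wᶜ \ X) := (Finset.union_sdiff_of_subset hXW).symm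
  have hd : Disjoint X (Wᶜ \ X) := Finset.disjoint_sdiff
  have h1 : ct w W = bt w W X + bt w W (Wᶜ \ X) := by
    unfold ct
    conv_lhs => rw [he]
    exact bt_union_right w W hd
  have h2 : ct (del w X) W = bt (del w X) W X + bt (del w X) W (Wᶜ \ X) := by
    unfold ct
    conv_lhs => rw [he]
    exact bt_union_right _ W hd
  have h3 : bt (del w X) W X = 0 := by
    rw [bt_eq_zero]
    intro u _ v hv
    unfold del
    rw [if_pos (Or.inr hv)]
  have h4 : bt (del w X) W (Wᶜ \ X) = bt w W (Wᶜ \ X) := by
    refine bt_congr fun u hu v hv => ?_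
    unfold del
    rw [if_neg]
    rintro (h5 | h5)
    · exact Finset.disjoint_left.mp h hu h5
    · exact (Finset.mem_sdiff.mp hv).2 h5
  omega

/-- Row sums after deletion. -/
theorem row_del {U : Finset V} {w : V → V → ℕ} {r : ℕ} (h : RG U w r) {X : Finset V} {u : V}
    (hu : u ∈ U) (hX : u ∉ X) : ∑ v, del w X u v + bt w {u} X = r := by
  rw [bt_singleton_left, ← h.deg u hu, ← Finset.sum_add_sum_compl X (fun v => w u v), add_comm]
  congr 1
  rw [← Finset.sum_add_sum_compl X (fun v => del w X u v)]
  have h1 : ∑ v ∈ X, del w X u v = 0 := by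
    refine Finset.sum_eq_zero fun v hv => ?_
    unfold del
    rw [if_pos (Or.inr hv)]
  rw [h1, zero_add]
  refine Finset.sum_congr rfl fun v hv => ?_
  unfold del
  rw [if_neg]
  rw [mem_compl] at hv
  tauto

/-- Weight of a set towards `X`. -/
theorem bt_sep {U X Y : Finset V} {w : V → V → ℕ} {r : ℕ} {a b c : V} (h : RG U w r)
    (hS : Sep U w X Y a b c) {W : Finset V} (hW : W ⊆ U) (hd : Disjoint W X) :
    bt w W X = (if a ∈ W then bt w {a} X else 0) + (if b ∈ W then bt w {b} X else 0) +
      (if c ∈ W then bt w {c} X else 0) := by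
  have h1 : bt w W X = ∑ u ∈ W, bt w {u} X := by
    unfold bt
    refine Finset.sum_congr rfl fun u _ => ?_
    simp
  have h2 : ∀ u ∈ W, bt w {u} X = (if u = a then bt w {a} X else 0) +
      (if u = b then bt w {b} X else 0) + (if u = c then bt w {c} X else 0) := by
    intro u hu
    have h3 := hW hu
    rw [hS.un] at h3
    simp only [mem_union, mem_insert, mem_singleton] at h3
    rcases h3 with (h3 | h3) | h3 | h3 | h3
    · exact absurd h3 (Finset.disjoint_left.mp hd hu)
    · have h4 : bt w {u} X = 0 := by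
        rw [bt_eq_zero]
        intro v hv x hx
        rw [mem_singleton] at hv
        rw [hv, h.symm]
        exact hS.zero x hx u h3
      have e1 : u ≠ a := fun he => hS.aY (he ▸ h3)
      have e2 : u ≠ b := fun he => hS.bY (he ▸ h3)
      have e3 : u ≠ c := fun he => hS.cY (he ▸ h3)
      rw [h4, if_neg e1, if_neg e2, if_neg e3]
    · subst h3
      rw [if_pos rfl, if_neg hS.ab, if_neg hS.ac]
      omega
    · subst h3
      rw [if_pos rfl, if_neg hS.ab.symm, if_neg hS.bc]
      omega
    · subst h3
      rw [if_pos rfl, if_neg hS.ac.symm, if_neg hS.bc.symm]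
      omega
  rw [h1, Finset.sum_congr rfl h2, Finset.sum_add_distrib, Finset.sum_add_distrib,
    Finset.sum_ite_eq', Finset.sum_ite_eq', Finset.sum_ite_eq']

theorem ct_sep {U X Y : Finset V} {w : V → V → ℕ} {r : ℕ} {a b c : V} (h : RG U w r)
    (hS : Sep U w X Y a b c) : ct w X = bt w {a} X + bt w {b} X + bt w {c} X := by
  have h1 : U \ X ⊆ U := Finset.sdiff_subset
  have h2 := bt_sep h hS h1 Finset.sdiff_disjoint
  rw [h.ct_eq X, bt_comm w h.symm, h2]
  have ha : a ∈ U \ X := by rw [mem_sdiff, hS.un]; simp [hS.aX]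
  have hb : b ∈ U \ X := by rw [mem_sdiff, hS.un]; simp [hS.bX]
  have hc : c ∈ U \ X := by rw [mem_sdiff, hS.un]; simp [hS.cX]
  rw [if_pos ha, if_pos hb, if_pos hc]

/-- The inequality from `X ∪ {p, q}`. -/
theorem ct_two {U X : Finset V} {w : V → V → ℕ} {r : ℕ} (h : RG U w r) (hX : X ⊆ U)
    (ho : Odd X.card) {p q : V} (hpq : p ≠ q) (hp : p ∈ U) (hq : q ∈ U) (hpX : p ∉ X)
    (hqX : q ∉ X) : 2 * (bt w {p} X + bt w {q} X) ≤ ct w X + r := by
  have hd : Disjoint X ({p, q} : Finset V) := by
    rw [Finset.disjoint_left]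
    intro v hv hv'
    simp only [mem_insert, mem_singleton] at hv'
    rcases hv' with rfl | rfl
    · exact hpX hv
    · exact hqX hv
  have hd2 : Disjoint ({p} : Finset V) {q} := by simpa using hpq
  have e1 : ({p, q} : Finset V) = {p} ∪ {q} := rfl
  have h1 := ct_disj w h.symm hd
  have h2 := ct_disj w h.symm hd2
  have h3 := h.ct_singleton hp
  have h4 := h.ct_singleton hq
  have hsub : X ∪ {p, q} ⊆ U := by
    intro v hv
    simp only [mem_union, mem_insert, mem_singleton] at hv
    rcases hv with hv | rfl | rfl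
    · exact hX hv
    · exact hp
    · exact hq
  have hcard : (X ∪ {p, q}).card = X.card + 2 := by
    rw [Finset.card_union_of_disjoint hd, Finset.card_pair hpq]
  have h5 := h.cut _ hsub (by rw [hcard]; exact ho.add_even (by decide))
  have h6 : bt w X {p, q} = bt w {p} X + bt w {q} X := by
    rw [bt_comm w h.symm, e1, bt_union_left w hd2]
  rw [← e1] at h2
  omega

theorem god : GOD := by
  intro V _ _ U X Y w r a b c x₀ h hr hS ho hx₀
  have hXU : X ⊆ U := by rw [hS.un]; intro v hv; simp [hv]
  have haU : a ∈ U := by rw [hS.un]; simp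
  have hbU : b ∈ U := by rw [hS.un]; simp
  have hcU : c ∈ U := by rw [hS.un]; simp
  have hxa : x₀ ≠ a := fun he => hS.aX (he ▸ hx₀)
  have hxb : x₀ ≠ b := fun he => hS.bX (he ▸ hx₀)
  have hxc : x₀ ≠ c := fun he => hS.cX (he ▸ hx₀)
  have hcX := ct_sep h hS
  have hrX := h.cut X hXU ho
  have hpar := h.ct_odd_parity hXU ho
  have hab := ct_two h hXU ho hS.ab haU hbU hS.aX hS.bX
  have hac := ct_two h hXU ho hS.ac haU hcU hS.aX hS.cX
  obtain ⟨n, hn⟩ : ∃ n, 2 * n = ct w X - r := ⟨(ct w X - r) / 2, by omega⟩
  have hnb : n ≤ bt w {b} X := by omega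
  have hnc : n ≤ bt w {c} X := by omega
  refine ⟨bt w {a} X, bt w {b} X - n, bt w {c} X - n, n, ?_⟩
  set n₂ := bt w {b} X - n with hn₂
  set n₃ := bt w {c} X - n with hn₃
  have hsy : ∀ u v, (del w X u v + (edg x₀ a (bt w {a} X) u v + edg x₀ b n₂ u v +
      edg x₀ c n₃ u v + edg b c n u v)) = (del w X v u + (edg x₀ a (bt w {a} X) v u +
      edg x₀ b n₂ v u + edg x₀ c n₃ v u + edg b c n v u)) := by
    intro u v
    rw [edg_symm x₀ a _ u v, edg_symm x₀ b _ u v, edg_symm x₀ c _ u v, edg_symm b c _ u v]
    congr 1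
    unfold del
    by_cases h1 : u ∈ X ∨ v ∈ X
    · rw [if_pos h1, if_pos (by tauto)]
    · rw [if_neg h1, if_neg (by tauto), h.symm]
  have hsu : ∀ u v, (del w X u v + (edg x₀ a (bt w {a} X) u v + edg x₀ b n₂ u v +
      edg x₀ c n₃ u v + edg b c n u v)) ≠ 0 → u ∈ insert x₀ (U \ X) := by
    intro u v hne
    have ha' : a ∈ insert x₀ (U \ X) := by simp [haU, hS.aX]
    have hb' : b ∈ insert x₀ (U \ X) := by simp [hbU, hS.bX]
    have hc' : c ∈ insert x₀ (U \ X) := by simp [hcU, hS.cX]
    have hx' : x₀ ∈ insert x₀ (U \ X) := by simp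
    by_cases h1 : del w X u v ≠ 0
    · unfold del at h1
      by_cases h2 : u ∈ X ∨ v ∈ X
      · rw [if_pos h2] at h1; exact absurd rfl h1
      · rw [if_neg h2] at h1
        rw [not_or] at h2
        rw [mem_insert, mem_sdiff]
        exact Or.inr ⟨h.supp u v h1, h2.1⟩
    by_cases h2 : edg x₀ a (bt w {a} X) u v ≠ 0
    · rcases edg_ne h2 with rfl | rfl <;> assumption
    by_cases h3 : edg x₀ b n₂ u v ≠ 0
    · rcases edg_ne h3 with rfl | rfl <;> assumption
    by_cases h4 : edg x₀ c n₃ u v ≠ 0
    · rcases edg_ne h4 with rfl | rfl <;> assumption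
    by_cases h5 : edg b c n u v ≠ 0
    · rcases edg_ne h5 with rfl | rfl <;> assumption
    exfalso
    apply hne
    omega
  -- cuts of sets not containing `x₀`
  have hcut : ∀ W, W ⊆ U \ X → Odd W.card → r ≤ ct (fun u v => del w X u v +
      (edg x₀ a (bt w {a} X) u v + edg x₀ b n₂ u v +
      edg x₀ c n₃ u v + edg b c n u v)) W := by
    intro W hW hWo
    have hWU : W ⊆ U := hW.trans Finset.sdiff_subset
    have hWX : Disjoint W X := by
      rw [Finset.disjoint_left]
      intro v hv
      exact (Finset.mem_sdiff.mp (hW hv)).2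
    have hx₀W : x₀ ∉ W := fun hc => Finset.disjoint_left.mp hWX hc hx₀
    have e1 := ct_del w hWX
    have e2 := bt_sep h hS hWU hWX
    have e3 := h.cut W hWU hWo
    have e4 : ct (fun u v => del w X u v +
        (edg x₀ a (bt w {a} X) u v + edg x₀ b n₂ u v +
        edg x₀ c n₃ u v + edg b c n u v)) W = ct (del w X) W +
        (((ct (edg x₀ a (bt w {a} X)) W + ct (edg x₀ b n₂) W) + ct (edg x₀ c n₃) W) +
        ct (edg b c n) W) := by
      rw [ct_add (del w X) (fun u v => edg x₀ a (bt w {a} X) u v + edg x₀ b n₂ u v +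
        edg x₀ c n₃ u v + edg b c n u v), ct_add (fun u v => edg x₀ a (bt w {a} X) u v +
        edg x₀ b n₂ u v + edg x₀ c n₃ u v) (edg b c n), ct_add (fun u v =>
        edg x₀ a (bt w {a} X) u v + edg x₀ b n₂ u v) (edg x₀ c n₃),
        ct_add (edg x₀ a (bt w {a} X)) (edg x₀ b n₂)]
    rw [e4, ct_edg hxa, ct_edg hxb, ct_edg hxc, ct_edg hS.bc]
    by_cases ha : a ∈ W
    · by_cases hb : b ∈ W
      · by_cases hc : c ∈ W
        · simp only [ha, hb, hc, hx₀W, if_true, iff_true, if_false, iff_self] at e2 ⊢
          omega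
        · simp only [ha, hb, hc, hx₀W, if_true, iff_true, iff_false, not_false_eq_true,
            if_false, iff_self, not_true_eq_false] at e2 ⊢
          omega
      · by_cases hc : c ∈ W
        · simp only [ha, hb, hc, hx₀W, if_true, iff_true, iff_false, not_false_eq_true,
            if_false, iff_self, not_true_eq_false] at e2 ⊢
          omega
        · simp only [ha, hb, hc, hx₀W, if_true, iff_true, iff_false, not_false_eq_true,
            if_false, iff_self, not_true_eq_false] at e2 ⊢
          omega
    · by_cases hb : b ∈ W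
      · by_cases hc : c ∈ W
        · -- the main case
          have hXWU : X ∪ W ⊆ U := Finset.union_subset hXU hWU
          have haXW : a ∉ X ∪ W := by
            rw [mem_union, not_or]; exact ⟨hS.aX, ha⟩
          have haZ : a ∈ U \ (X ∪ W) := Finset.mem_sdiff.mpr ⟨haU, haXW⟩
          have hZ : U \ (X ∪ W) = {a} ∪ ((U \ (X ∪ W)).erase a) := by
            rw [← Finset.insert_eq, Finset.insert_erase haZ]
          have hdZ : Disjoint ({a} : Finset V) ((U \ (X ∪ W)).erase a) := by simp
          have f1 : ct w (U \ (X ∪ W)) = ct w (X ∪ W) := h.ct_compl hXWU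
          have f2 := ct_disj w h.symm hdZ
          rw [← hZ, f1, h.ct_singleton haU] at f2
          have f3 := ct_disj w h.symm hWX.symm
          rw [bt_comm w h.symm X W] at f3
          have hY2U : (U \ (X ∪ W)).erase a ⊆ U :=
            (Finset.erase_subset _ _).trans Finset.sdiff_subset
          have hcard : ((U \ (X ∪ W)).erase a).card + 1 + (X.card + W.card) = U.card := by
            rw [Finset.card_erase_add_one haZ, ← Finset.card_union_of_disjoint hWX.symm]
            exact Finset.card_sdiff_add_card_eq_card hXWU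
          have hY2o : Odd ((U \ (X ∪ W)).erase a).card := by
            obtain ⟨k1, hk1⟩ := h.even_card hr
            obtain ⟨k2, hk2⟩ := ho
            obtain ⟨k3, hk3⟩ := hWo
            rw [← Nat.not_even_iff_odd]
            rintro ⟨k4, hk4⟩
            omega
          have f4 := h.cut _ hY2U hY2o
          have hdd : Disjoint ((U \ (X ∪ W)).erase a) X := by
            rw [Finset.disjoint_left]
            intro v hv hv'
            rw [mem_erase, mem_sdiff, mem_union] at hv
            tauto
          have f5 := h.bt_single_le haU ((U \ (X ∪ W)).erase a ∪ X)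
          rw [bt_union_right w _ hdd] at f5
          simp only [ha, hb, hc, hx₀W, if_true, iff_true, iff_false, not_false_eq_true,
            if_false, iff_self, not_true_eq_false] at e2 ⊢
          omega
        · simp only [ha, hb, hc, hx₀W, if_true, iff_true, iff_false, not_false_eq_true,
            if_false, iff_self, not_true_eq_false] at e2 ⊢
          omega
      · by_cases hc : c ∈ W
        · simp only [ha, hb, hc, hx₀W, if_true, iff_true, iff_false, not_false_eq_true,
            if_false, iff_self, not_true_eq_false] at e2 ⊢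
          omega
        · simp only [ha, hb, hc, hx₀W, if_true, iff_true, iff_false, not_false_eq_true,
            if_false, iff_self, not_true_eq_false] at e2 ⊢
          omega
  refine ⟨hsy, ?_, hsu, ?_, ?_⟩
  · intro u
    show del w X u u + (edg x₀ a (bt w {a} X) u u + edg x₀ b n₂ u u +
      edg x₀ c n₃ u u + edg b c n u u) = 0
    rw [edg_self hxa, edg_self hxb, edg_self hxc, edg_self hS.bc]
    unfold del
    by_cases h1 : u ∈ X ∨ u ∈ X
    · rw [if_pos h1]
    · rw [if_neg h1, h.irr]
  · intro u hu
    show ∑ v, (del w X u v + (edg x₀ a (bt w {a} X) u v + edg x₀ b n₂ u v +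
      edg x₀ c n₃ u v + edg b c n u v)) = r
    rw [Finset.sum_add_distrib, Finset.sum_add_distrib, Finset.sum_add_distrib,
      Finset.sum_add_distrib, edg_row hxa, edg_row hxb, edg_row hxc, edg_row hS.bc]
    rw [mem_insert, mem_sdiff] at hu
    rcases hu with rfl | ⟨huU, huX⟩
    · have h0 : ∑ v, del w X u v = 0 := by
        refine Finset.sum_eq_zero fun v _ => ?_
        unfold del
        rw [if_pos (Or.inl hx₀)]
      simp only [h0, if_pos rfl, hxa, hxb, hxc, if_true, if_false]
      omega
    · have h0 := row_del h huU huX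
      have hux : u ≠ x₀ := fun he => huX (he ▸ hx₀)
      rw [if_neg hux, if_neg hux, if_neg hux]
      rw [hS.un] at huU
      simp only [mem_union, mem_insert, mem_singleton] at huU
      rcases huU with (h3 | h3) | h3 | h3 | h3
      · exact absurd h3 huX
      · have h4 : bt w {u} X = 0 := by
          rw [bt_eq_zero]
          intro v hv x hx
          rw [mem_singleton] at hv
          rw [hv, h.symm]
          exact hS.zero x hx u h3
        have e1 : u ≠ a := fun he => hS.aY (he ▸ h3)
        have e2 : u ≠ b := fun he => hS.bY (he ▸ h3)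
        have e3 : u ≠ c := fun he => hS.cY (he ▸ h3)
        simp only [e1, e2, e3, if_false]
        omega
      · subst h3
        simp only [hS.ab, hS.ac, if_true, if_false]
        omega
      · subst h3
        simp only [hS.ab.symm, hS.bc, if_true, if_false]
        omega
      · subst h3
        simp only [hS.ac.symm, hS.bc.symm, if_true, if_false]
        omega
  · intro W hW hWo
    by_cases hx : x₀ ∈ W
    · have hW2 : insert x₀ (U \ X) \ W ⊆ U \ X := by
        intro v hv
        rw [mem_sdiff, mem_insert] at hv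
        rcases hv.1 with h1 | h1
        · exact absurd (h1 ▸ hx) hv.2
        · exact h1
      have hc1 : (insert x₀ (U \ X) \ W).card + W.card = (insert x₀ (U \ X)).card :=
        Finset.card_sdiff_add_card_eq_card hW
      have hc2 : (insert x₀ (U \ X)).card = (U \ X).card + 1 := by
        rw [Finset.card_insert_of_notMem]
        rw [mem_sdiff]
        exact fun hc => hc.2 hx₀
      have hc3 : (U \ X).card + X.card = U.card := Finset.card_sdiff_add_card_eq_card hXU
      have hodd : Odd (insert x₀ (U \ X) \ W).card := by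
        obtain ⟨k1, hk1⟩ := h.even_card hr
        obtain ⟨k2, hk2⟩ := ho
        obtain ⟨k3, hk3⟩ := hWo
        rw [← Nat.not_even_iff_odd]
        rintro ⟨k4, hk4⟩
        omega
      rw [← ct_compl' hsy hsu hW]
      exact hcut _ hW2 hodd
    · refine hcut W ?_ hWo
      intro v hv
      have := hW hv
      rw [mem_insert] at this
      rcases this with h1 | h1
      · exact absurd (h1 ▸ hv) hx
      · exact h1

end Pool.Agent.Helper54.RG3
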